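import Mathlib
import Pool.Agent.U958.MU.Stm

/-!
# Project MU, package BL: Blichfeldt's bound in dimensions 16 and 8
(helper113)
-/

set_option autoImplicit false

namespace Pool.Agent.U113.MU

open MeasureTheory Module
open scoped ENNReal Real

theorem pair_sq {ι : Type*} (s : Finset ι) (a : ι → ℝ) :
    ∑ i ∈ s, ∑ j ∈ s, (a i - a j) ^ 2 =
      2 * s.card * ∑ i ∈ s, a i ^ 2 - 2 * (∑ i ∈ s, a i) ^ 2 := by
  have h : ∀ i j, (a i - a j) ^ 2 = a i ^ 2 - 2 * (a i * a j) + a j ^ 2 := fun i j => by ring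
  have h2 : ∑ i ∈ s, ∑ j ∈ s, a i ^ 2 = s.card * ∑ i ∈ s, a i ^ 2 := by
    simp only [Finset.sum_const, nsmul_eq_mul, Finset.mul_sum]
  have h3 : ∑ i ∈ s, ∑ j ∈ s, a j ^ 2 = s.card * ∑ i ∈ s, a i ^ 2 := by
    simp only [Finset.sum_const, nsmul_eq_mul]
  have h4 : ∑ i ∈ s, ∑ j ∈ s, a i * a j = (∑ i ∈ s, a i) ^ 2 := by
    rw [sq, Finset.sum_mul_sum]
  have h5 : ∑ i ∈ s, ∑ j ∈ s, 2 * (a i * a j) = 2 * (∑ i ∈ s, a i) ^ 2 := by
    rw [← h4]; simp only [Finset.mul_sum]
  simp only [h, Finset.sum_add_distrib, Finset.sum_sub_distrib]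
  rw [h2, h3, h5]
  ring

theorem card_bound {ι : Type*} {n : ℕ} (s : Finset ι) (a : ι → Fin n → ℝ) (t : ℝ)
    (h1 : ∀ i ∈ s, ∀ j ∈ s, i ≠ j → 4 ≤ ∑ l, (a i l - a j l) ^ 2)
    (h2 : ∀ i ∈ s, ∑ l, (a i l) ^ 2 < t) : (s.card : ℝ) * (4 - 2 * t) ≤ 4 := by
  classical
  rcases s.eq_empty_or_nonempty with rfl | hs
  · simp
  have hk : (1 : ℝ) ≤ s.card := by exact_mod_cast hs.card_pos
  have e1 : ∑ i ∈ s, ∑ j ∈ s, ∑ l, (a i l - a j l) ^ 2 ≤ 2 * s.card * (s.card * t) := by
    have e2 : ∑ i ∈ s, ∑ j ∈ s, ∑ l, (a i l - a j l) ^ 2 =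
        ∑ l, (2 * s.card * ∑ i ∈ s, a i l ^ 2 - 2 * (∑ i ∈ s, a i l) ^ 2) := by
      rw [Finset.sum_congr rfl fun i _ => Finset.sum_comm, Finset.sum_comm]
      exact Finset.sum_congr rfl fun l _ => pair_sq s fun i => a i l
    rw [e2]
    calc _ ≤ ∑ l, (2 * s.card * ∑ i ∈ s, a i l ^ 2) := Finset.sum_le_sum fun l _ => by
          have := sq_nonneg (∑ i ∈ s, a i l)
          linarith
      _ = 2 * s.card * ∑ i ∈ s, ∑ l, a i l ^ 2 := by
          rw [← Finset.mul_sum, Finset.sum_comm]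
      _ ≤ 2 * s.card * ∑ i ∈ s, t := by
          refine mul_le_mul_of_nonneg_left (Finset.sum_le_sum fun i hi => (h2 i hi).le) ?_
          positivity
      _ = 2 * s.card * (s.card * t) := by rw [Finset.sum_const, nsmul_eq_mul]
  have e3 : (s.card : ℝ) * (4 * (s.card - 1)) ≤ ∑ i ∈ s, ∑ j ∈ s, ∑ l, (a i l - a j l) ^ 2 := by
    calc (s.card : ℝ) * (4 * (s.card - 1)) = ∑ i ∈ s, (4 * (s.card - 1) : ℝ) := by
          rw [Finset.sum_const, nsmul_eq_mul]
      _ ≤ _ := Finset.sum_le_sum fun i hi => by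
          rw [← Finset.add_sum_erase s _ hi]
          have e4 : ∑ j ∈ s.erase i, (4 : ℝ) ≤ ∑ j ∈ s.erase i, ∑ l, (a i l - a j l) ^ 2 :=
            Finset.sum_le_sum fun j hj => h1 i hi j (Finset.mem_of_mem_erase hj)
              (Finset.ne_of_mem_erase hj).symm
          rw [Finset.sum_const, nsmul_eq_mul, Finset.card_erase_of_mem hi,
            Nat.cast_sub hs.card_pos, Nat.cast_one] at e4
          have e5 : (0 : ℝ) ≤ ∑ l, (a i l - a i l) ^ 2 := Finset.sum_nonneg fun l _ => sq_nonneg _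
          linarith
  have e6 : (s.card : ℝ) * (4 * (s.card - 1)) ≤ s.card * (2 * s.card * t) := by
    calc _ ≤ _ := e3.trans e1
      _ = _ := by ring
  have e7 := le_of_mul_le_mul_left e6 (by linarith)
  linarith

section

variable {n : ℕ} (M : Matrix (Fin n) (Fin n) ℝ)

theorem cont_Q : Continuous fun x : Fin n → ℝ => ∑ i, (M.mulVec x i) ^ 2 := by
  unfold Matrix.mulVec dotProduct
  fun_prop

/-- the volume bound -/
theorem vol_le (hM : M.det ≠ 0) (I : AddSubgroup (Fin n → ℤ)) (hI : I.index ≠ 0) (t : ℝ) (N : ℕ)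
    (ht : 0 < 4 - 2 * t) (hN : 4 < ((N : ℝ) + 1) * (4 - 2 * t))
    (H : ∀ x ∈ I, x ≠ 0 → 4 ≤ ∑ i, (M.mulVec (fun j => (x j : ℝ)) i) ^ 2) :
    volume {x : Fin n → ℝ | ∑ i, (M.mulVec x i) ^ 2 < t} ≤ (N : ℝ≥0∞) * I.index := by
  classical
  set A : Set (Fin n → ℝ) := {x : Fin n → ℝ | ∑ i, (M.mulVec x i) ^ 2 < t} with hA
  have hAm : MeasurableSet A := (isOpen_lt (cont_Q M) continuous_const).measurableSet
  set b := Pi.basisFun ℝ (Fin n) with hb
  have hF := ZSpan.isAddFundamentalDomain' b (volume : Measure (Fin n → ℝ))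
  have hint : ∀ g : (Submodule.span ℤ (Set.range b)).toAddSubgroup, ∃ c : Fin n → ℤ, ∀ i, (c i : ℝ) = (g : Fin n → ℝ) i := by
    intro g
    have := (Basis.mem_span_iff_repr_mem ℤ b (g : Fin n → ℝ)).1 g.2
    choose c hc using this
    refine ⟨c, fun i => ?_⟩
    have h := hc i
    have e : b.repr (g : Fin n → ℝ) i = (g : Fin n → ℝ) i := Pi.basisFun_repr ..
    rw [e] at h
    exact h
  choose c hc using hint
  have hcinj : Function.Injective c := by
    intro g g' h0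
    apply Subtype.ext
    funext i
    rw [← hc g i, ← hc g' i, h0]
  have hcount : Countable (Submodule.span ℤ (Set.range b)).toAddSubgroup := hcinj.countable
  have : I.FiniteIndex := ⟨hI⟩
  have : Fintype ((Fin n → ℤ) ⧸ I) := I.fintypeQuotientOfFiniteIndex
  have hpt : ∀ x : Fin n → ℝ, ∑' g : (Submodule.span ℤ (Set.range b)).toAddSubgroup,
      A.indicator (fun _ => (1 : ℝ≥0∞)) (g +ᵥ x) ≤ (N : ℝ≥0∞) * I.index := by
    intro x
    rw [ENNReal.tsum_eq_iSup_sum]
    refine iSup_le fun T => ?_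
    have h1 : ∑ g ∈ T, A.indicator (fun _ => (1 : ℝ≥0∞)) (g +ᵥ x) =
        ((T.filter fun g => g +ᵥ x ∈ A).card : ℝ≥0∞) := by
      rw [Finset.card_filter]
      push_cast
      exact Finset.sum_congr rfl fun g _ => by
        by_cases h : g +ᵥ x ∈ A
        · rw [Set.indicator_of_mem h, if_pos h]
        · rw [Set.indicator_of_notMem h, if_neg h]
    rw [h1]
    have h2 : (T.filter fun g => g +ᵥ x ∈ A).card ≤
        N * ((T.filter fun g => g +ᵥ x ∈ A).image
          fun g => (QuotientAddGroup.mk (c g) : (Fin n → ℤ) ⧸ I)).card := by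
      refine Finset.card_le_mul_card_image _ _ fun q _ => ?_
      by_contra hcon
      push Not at hcon
      have h3 := card_bound ((T.filter fun g => g +ᵥ x ∈ A).filter
        fun g => (QuotientAddGroup.mk (c g) : (Fin n → ℤ) ⧸ I) = q)
        (fun g => M.mulVec (g +ᵥ x)) t ?_ ?_
      · have h4 : ((N + 1 : ℕ) : ℝ) ≤ (((T.filter fun g => g +ᵥ x ∈ A).filter
          fun g => (QuotientAddGroup.mk (c g) : (Fin n → ℤ) ⧸ I) = q).card : ℝ) :=
          Nat.cast_le.2 hcon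
        rw [Nat.cast_add, Nat.cast_one] at h4
        have h5 := mul_le_mul_of_nonneg_right h4 ht.le
        linarith
      · intro g hg g' hg' hne
        rw [Finset.mem_filter] at hg hg'
        have h6 : c g - c g' ∈ I := by
          have h7 : (QuotientAddGroup.mk (c g') : (Fin n → ℤ) ⧸ I) = QuotientAddGroup.mk (c g) := by
            rw [hg.2, hg'.2]
          have h8 := QuotientAddGroup.eq.1 h7
          rwa [neg_add_eq_sub] at h8
        have h7 : c g - c g' ≠ 0 := by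
          intro h0
          apply hne
          apply Subtype.ext
          funext i
          rw [← hc g i, ← hc g' i, sub_eq_zero.1 h0]
        have h8 := H _ h6 h7
        have h9 : (fun j => ((c g - c g') j : ℝ)) = (g +ᵥ x) - (g' +ᵥ x) := by
          funext j
          have e1 : (g +ᵥ x) j = (g : Fin n → ℝ) j + x j := rfl
          have e2 : (g' +ᵥ x) j = (g' : Fin n → ℝ) j + x j := rfl
          rw [Pi.sub_apply, Pi.sub_apply, e1, e2, ← hc g j, ← hc g' j]
          push_cast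
          ring
        rw [h9, Matrix.mulVec_sub] at h8
        exact h8
      · intro g hg
        rw [Finset.mem_filter, Finset.mem_filter] at hg
        exact hg.1.2
    have h3 : ((T.filter fun g => g +ᵥ x ∈ A).image
          fun g => (QuotientAddGroup.mk (c g) : (Fin n → ℤ) ⧸ I)).card ≤ I.index := by
      rw [AddSubgroup.index_eq_card, Nat.card_eq_fintype_card]
      exact Finset.card_le_univ _
    exact_mod_cast h2.trans (Nat.mul_le_mul_left N h3)
  have hv : volume (ZSpan.fundamentalDomain b) = 1 := by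
    rw [hb, ZSpan.fundamentalDomain_pi_basisFun, volume_pi, Measure.pi_pi]
    simp
  calc volume A = ∫⁻ x, A.indicator (fun _ => (1 : ℝ≥0∞)) x := by
        rw [lintegral_indicator hAm, setLIntegral_one]
    _ = ∑' g : (Submodule.span ℤ (Set.range b)).toAddSubgroup, ∫⁻ x in ZSpan.fundamentalDomain b,
          A.indicator (fun _ => (1 : ℝ≥0∞)) (g +ᵥ x) := hF.lintegral_eq_tsum'' _
    _ = ∫⁻ x in ZSpan.fundamentalDomain b, ∑' g : (Submodule.span ℤ (Set.range b)).toAddSubgroup,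
          A.indicator (fun _ => (1 : ℝ≥0∞)) (g +ᵥ x) := by
        rw [lintegral_tsum]
        intro g
        exact ((measurable_const.indicator hAm).comp (measurable_const_vadd g)).aemeasurable
    _ ≤ ∫⁻ _ in ZSpan.fundamentalDomain b, ((N : ℝ≥0∞) * I.index) :=
        lintegral_mono fun x => hpt x
    _ = (N : ℝ≥0∞) * I.index := by
        rw [setLIntegral_const, hv, mul_one]

/-- the volume of the ball -/
theorem vol_ball {k : ℕ} (hk : n = 2 * k) (hn : 0 < n) (r : ℝ) (hr : 0 < r) :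
    volume {y : Fin n → ℝ | ∑ i, (y i) ^ 2 < r ^ 2} =
      ENNReal.ofReal (r ^ n * (π ^ k / k.factorial)) := by
  have : Nonempty (Fin n) := ⟨⟨0, hn⟩⟩
  have h1 := (PiLp.volume_preserving_toLp (Fin n)).measure_preimage
    (s := Metric.ball (0 : EuclideanSpace ℝ (Fin n)) r) measurableSet_ball.nullMeasurableSet
  have h2 : (WithLp.toLp 2 : (Fin n → ℝ) → EuclideanSpace ℝ (Fin n)) ⁻¹' Metric.ball 0 r =
      {y : Fin n → ℝ | ∑ i, (y i) ^ 2 < r ^ 2} := by
    ext y
    rw [Set.mem_preimage, mem_ball_zero_iff, EuclideanSpace.norm_eq, Real.sqrt_lt' hr]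
    simp
  rw [h2] at h1
  rw [h1, InnerProductSpace.volume_ball_of_dim_even (k := k) (by simpa using hk)]
  rw [finrank_euclideanSpace, Fintype.card_fin, ← ENNReal.ofReal_pow hr.le,
    ← ENNReal.ofReal_mul (by positivity)]

/-- Blichfeldt's bound -/
theorem blich {k : ℕ} (hk : n = 2 * k) (hn : 0 < n) (hM : M.det ≠ 0) (I : AddSubgroup (Fin n → ℤ))
    (hI : I.index ≠ 0) (r C : ℝ) (hr : 0 < r) (N : ℕ)
    (ht : 0 < 4 - 2 * r ^ 2) (hN : 4 < ((N : ℝ) + 1) * (4 - 2 * r ^ 2))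
    (hC : |M.det| * I.index ≤ C) (hB : C * N < r ^ n * (π ^ k / k.factorial)) :
    ∃ x ∈ I, x ≠ 0 ∧ ∑ i, (M.mulVec (fun j => (x j : ℝ)) i) ^ 2 < 4 := by
  by_contra hcon
  push Not at hcon
  have h1 := vol_le M hM I hI (r ^ 2) N ht hN hcon
  have h2 : {x : Fin n → ℝ | ∑ i, (M.mulVec x i) ^ 2 < r ^ 2} =
      (Matrix.toLin' M) ⁻¹' {y : Fin n → ℝ | ∑ i, (y i) ^ 2 < r ^ 2} := by
    ext x
    simp [Matrix.toLin'_apply]
  have hd : LinearMap.det (Matrix.toLin' M) ≠ 0 := by rwa [LinearMap.det_toLin']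
  rw [h2, Measure.addHaar_preimage_linearMap volume hd, LinearMap.det_toLin',
    vol_ball hk hn r hr, ← ENNReal.ofReal_mul (abs_nonneg _)] at h1
  have h3 : (N : ℝ≥0∞) * I.index = ENNReal.ofReal ((N : ℝ) * I.index) := by
    rw [ENNReal.ofReal_mul (Nat.cast_nonneg _), ENNReal.ofReal_natCast, ENNReal.ofReal_natCast]
  rw [h3, ENNReal.ofReal_le_ofReal_iff (by positivity), abs_inv] at h1
  have hd0 : 0 < |M.det| := abs_pos.2 hM
  rw [inv_mul_le_iff₀ hd0] at h1
  have h4 : |M.det| * (N * I.index) = (|M.det| * I.index) * N := by ring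
  rw [h4] at h1
  have h5 := mul_le_mul_of_nonneg_right hC (Nat.cast_nonneg (α := ℝ) N)
  linarith

end

theorem t_BL16 : Pool.Agent.U958.MU.S_BL16 := by
  intro M hM I hI h
  refine blich M (k := 8) rfl (by norm_num) hM I hI (4 / 3) 1 (by norm_num) 9 (by norm_num)
    (by norm_num) h ?_
  have h1 : (3.14 : ℝ) ^ 8 < π ^ 8 := pow_lt_pow_left₀ Real.pi_gt_d2 (by norm_num) (by norm_num)
  have h2 : ((8 : ℕ).factorial : ℝ) = 40320 := by norm_num [Nat.factorial]
  rw [h2]
  norm_num at h1 ⊢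
  linarith

theorem t_BL8 : Pool.Agent.U958.MU.S_BL8 := by
  intro M hM I hI h
  refine blich M (k := 4) rfl (by norm_num) hM I hI (5 / 4) 4 (by norm_num) 4 (by norm_num)
    (by norm_num) h ?_
  have h1 : (3.14 : ℝ) ^ 4 < π ^ 4 := pow_lt_pow_left₀ Real.pi_gt_d2 (by norm_num) (by norm_num)
  have h2 : ((4 : ℕ).factorial : ℝ) = 24 := by norm_num [Nat.factorial]
  rw [h2]
  norm_num at h1 ⊢
  linarith

end Pool.Agent.U113.MU
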